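import Mathlib
import Pool.Agent.H78.OpenOrbit

set_option autoImplicit false

namespace Pool.Agent.Results.MP_4a1002_ag.PGL5

open Matrix

/-- In the simple group PGL(5,K) there is a commutative unipotent subgroup H, maximal among
commutative subgroups, with no open orbit in any effective action of PGL(5,K) by homeomorphisms
on an irreducible T1 space (such as the K-points of a G-variety with the Zariski topology). -/
theorem result (K : Type) [Field K] [IsAlgClosed K] [CharZero K] :
    ∃ H : Subgroup (ProjGenLinGroup (Fin 5) K),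
      (∀ x ∈ H, ∃ γ : GL (Fin 5) K, ProjGenLinGroup.mk γ = x ∧
        IsNilpotent ((γ : Matrix (Fin 5) (Fin 5) K) - 1)) ∧
      (∀ x ∈ H, ∀ y ∈ H, x * y = y * x) ∧
      (∀ H' : Subgroup (ProjGenLinGroup (Fin 5) K),
        (∀ x ∈ H', ∀ y ∈ H', x * y = y * x) → H ≤ H' → H' = H) ∧
      ∀ (X : Type) [TopologicalSpace X] [T1Space X] [IrreducibleSpace X]
        [MulAction (ProjGenLinGroup (Fin 5) K) X]
        [ContinuousConstSMul (ProjGenLinGroup (Fin 5) K) X]
        [FaithfulSMul (ProjGenLinGroup (Fin 5) K) X] (x : X),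
        ¬ IsOpen (MulAction.orbit H x) := by
  refine ⟨H78.OpenOrbit.H K, H78.OpenOrbit.H_unip,
    fun x hx y hy => H78.OpenOrbit.H_comm x y hx hy, fun H' hc hle => le_antisymm ?_ hle,
    fun X _ _ _ _ _ _ x => H78.OpenOrbit.no_open X x⟩
  intro x hx
  exact H78.OpenOrbit.H_cent x fun y hy => hc x hx y (hle hy)

end Pool.Agent.Results.MP_4a1002_ag.PGL5
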